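import Pool.Agent.K9h89.AW.V12
import Pool.Agent.N753.SU.Cnt
import Pool.Agent.N753.SU.Od
import Pool.Agent.N73.SU.SU_RM
import Pool.Agent.N222.SU_OM
import Pool.Agent.N348.SU_UZM
import Pool.Agent.N199.SU_B
import Pool.Agent.N123.OD1
import Pool.Agent.N692.SU.OD2
import Pool.Agent.N478.SU.OD3

/-!
# Vojta's conjecture with truncated counting function on `ℙ¹ × ℙ¹`: each component contributes
# four times the larger height, at almost all points of all boxes

Let `K` be a number field. A reduced effective divisor `D` of `X = ℙ¹ × ℙ¹` over `K` is the sum of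
finitely many prime divisors `F_j = 0` (`F_j` an irreducible polynomial in `x_0, x_1` over `K`, of
bidegree `(a_j, b_j)`) and of some of the divisors `x_i = ∞`. No condition is put on the
singularities and the intersections.

There is ONE set `E` of points `x = (x_0, x_1)` over `K` with the following properties. For all
`H₀, H₁ ≥ 0` it contains at most `2 exp (2 H₀ + 2 H₁ - √ max (H₀, H₁))` of the about
`exp (2 H₀ + 2 H₁)` points with `h(x_0) ≤ H₀`, `h(x_1) ≤ H₁`, whatever the shape of the box is;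
it follows that it has density zero for each height `α h(x_0) + β h(x_1)`, `α, β > 0`. And for all
`D`, all finite sets `S` of primes and all `ε > 0` there are a proper closed subset `Z` (finitely
many fibres of the two projections) and a constant `C` such that
`N^(1)_S(D, x) ≥ ∑ w_j(x) + ∑_{x_i = ∞ in D} h(x_i) - ε (h(x_0) + h(x_1)) - C`
for all `x` outside `E`, `Z` and `D`, where `w_j(x) = a_j h(x_0) + b_j h(x_1)` if `a_j + b_j ≤ 5`,
and otherwise `w_j(x)` is the minimum of this and of FOUR times the maximum of the heights of those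
coordinates on which `F_j` depends.

The number four is the total degree of `-K_X`: each component, of whatever degree, contributes as
much as the conjecture allows to lose for all of them together. The inequality
`N^(1)_S(D, x) ≥ h_{K_X + D}(x) - ε h_A(x) - C` of the conjecture holds for all `x` outside `E`, `Z`
and `D` if `∑ max (a_j - 4, 0) ≤ 2`, `∑ max (b_j - 4, 0) ≤ 2` and `∑ (a_j + b_j - 4) ≤ 4`, the sums
over the components with `a_j + b_j ≥ 6`: for instance for all irreducible `D` with `a, b ≤ 6` and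
`a + b ≤ 8`, for two components of total degree six with `a, b ≤ 5`, and for the sums of these and
of arbitrarily many components of total degree at most five.
-/

set_option autoImplicit false

namespace Pool.Agent.Results.MP_542436_nt.AnticanonicalWeight

open NumberField IsDedekindDomain Height

/-- the local height at the prime `v` of the point `x`, relative to the divisor `F = 0` of `ℙ¹ × ℙ¹`
(with respect to the closure of this divisor over the local ring of `v`): the logarithm of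
`|F|_v ∏ max (1, |x_i|_v) ^ d_i / |F(x)|_v`, where `|F|_v` is the maximum of the absolute values of
the coefficients and `d_i` is the degree of `F` in the variable `x_i` -/
noncomputable def localHeight {K : Type} [Field K] [NumberField K]
    (v : HeightOneSpectrum (𝓞 K)) (F : MvPolynomial (Fin 2) K) (x : Fin 2 → K) : ℝ :=
  Real.log (⨆ s : F.support, FinitePlace.mk v (F.coeff s)) +
    ∑ i, (F.degreeOf i : ℝ) * Real.log (max 1 (FinitePlace.mk v (x i))) -
      Real.log (FinitePlace.mk v (MvPolynomial.eval x F))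

/-- the truncated counting function `N^(1)_S(D, x)` of the sum `D` of the divisors `F_j = 0` and of
the divisors `x_i = ∞` with `i ∈ I`: the sum over the primes `v ∉ S` of the minimum of `log N(v)`
and of the local height relative to `D` -/
noncomputable def counting {K : Type} [Field K] [NumberField K] {r : ℕ}
    (S : Set (HeightOneSpectrum (𝓞 K))) (F : Fin r → MvPolynomial (Fin 2) K) (I : Finset (Fin 2))
    (x : Fin 2 → K) : ℝ :=
  ∑ᶠ (v : HeightOneSpectrum (𝓞 K)) (_ : v ∉ S), min (Real.log (Ideal.absNorm v.asIdeal : ℝ))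
    (∑ j, localHeight v (F j) x + ∑ i ∈ I, Real.log (max 1 (FinitePlace.mk v (x i))))

/-- the degree `q_i` of `D` in the variable `x_i`: the bidegree of `D` is `(q_0, q_1)` -/
noncomputable def degree {K : Type} [Field K] {r : ℕ} (F : Fin r → MvPolynomial (Fin 2) K)
    (I : Finset (Fin 2)) (i : Fin 2) : ℕ :=
  ∑ j, (F j).degreeOf i + if i ∈ I then 1 else 0

/-- the lower bound `w_F(x)` for the contribution of the component `F = 0` of bidegree `(a, b)`:
`a h(x_0) + b h(x_1)` if `a + b ≤ 5`, and otherwise the minimum of this number and of four times the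
maximum of the heights of those coordinates on which `F` depends -/
noncomputable def weight {K : Type} [Field K] [NumberField K] (F : MvPolynomial (Fin 2) K)
    (x : Fin 2 → K) : ℝ :=
  if F.degreeOf 0 + F.degreeOf 1 ≤ 5 then
    F.degreeOf 0 * logHeight₁ (x 0) + F.degreeOf 1 * logHeight₁ (x 1)
  else min (F.degreeOf 0 * logHeight₁ (x 0) + F.degreeOf 1 * logHeight₁ (x 1))
    (4 * max (if F.degreeOf 0 = 0 then 0 else logHeight₁ (x 0))
      (if F.degreeOf 1 = 0 then 0 else logHeight₁ (x 1)))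

/-- the loss of the component `F = 0` of bidegree `(a, b)` at the points with `h(x_1) = 0`: `0` if
`a + b ≤ 5`, and otherwise `a - 4` (or `0` if `a ≤ 4`) -/
noncomputable def loss₀ {K : Type} [Field K] (F : MvPolynomial (Fin 2) K) : ℕ :=
  if F.degreeOf 0 + F.degreeOf 1 ≤ 5 then 0 else F.degreeOf 0 - 4

/-- the loss of the component `F = 0` of bidegree `(a, b)` at the points with `h(x_0) = 0`: `0` if
`a + b ≤ 5`, and otherwise `b - 4` (or `0` if `b ≤ 4`) -/
noncomputable def loss₁ {K : Type} [Field K] (F : MvPolynomial (Fin 2) K) : ℕ :=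
  if F.degreeOf 0 + F.degreeOf 1 ≤ 5 then 0 else F.degreeOf 1 - 4

/-- the loss of the component `F = 0` of bidegree `(a, b)` at the points with `h(x_0) = h(x_1)`: `0`
if `a + b ≤ 5`, and otherwise `a + b - 4` -/
noncomputable def loss₂ {K : Type} [Field K] (F : MvPolynomial (Fin 2) K) : ℕ :=
  if F.degreeOf 0 + F.degreeOf 1 ≤ 5 then 0 else F.degreeOf 0 + F.degreeOf 1 - 4

open Pool.Agent.N753.SU in
theorem stmOD : StmOD :=
  Pool.Agent.N753.SU.stmOD (Pool.Agent.N692.SU.od2 Pool.Agent.N123.OD1.od1)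
    Pool.Agent.N478.SU.stmOD3

open Pool.Agent.N753.SU in
theorem stmLM : StmLM :=
  Pool.Agent.N753.SU.stmLM Pool.Agent.N348.SU.um Pool.Agent.N348.SU.zm Pool.Agent.N199.SU.stmB1
    Pool.Agent.N199.SU.stmB2 Pool.Agent.N199.SU.stmB3

theorem tools : Pool.Agent.N445.UB.Tools where
  rm := Pool.Agent.N73.SURM.stmRM
  um := Pool.Agent.N348.SU.um
  zm := Pool.Agent.N348.SU.zm
  lm := stmLM
  od := stmOD
  om := Pool.Agent.N222.SUOM.stmOM
  b4 := Pool.Agent.N199.SU.stmB4

open Pool.Agent.N753.SU Pool.Agent.N753.LS Pool.Agent.H691R3 Pool.Agent.N445.UB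
  Pool.Agent.K9h89.AW in
theorem TT_weight {K : Type} [Field K] [NumberField K] {r : ℕ}
    (F : Fin r → MvPolynomial (Fin 2) K) (I : Finset (Fin 2)) (x : Fin 2 → K) :
    TT4 F I x = ∑ j, weight (F j) x + ∑ i ∈ I, logHeight₁ (x i) := by
  rw [TT4_eq]
  congr 1
  · refine Finset.sum_congr rfl fun j _ => ?_
    unfold tc4 weight
    rw [hr_aff, hr_aff]
  · exact Finset.sum_congr rfl fun i _ => hr_aff (x i)

theorem weight_le {K : Type} [Field K] [NumberField K] (F : MvPolynomial (Fin 2) K)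
    (x : Fin 2 → K) : weight F x ≤
      F.degreeOf 0 * logHeight₁ (x 0) + F.degreeOf 1 * logHeight₁ (x 1) := by
  unfold weight
  split_ifs
  · exact le_rfl
  all_goals exact min_le_left _ _

/-- the part of the height which is lost -/
theorem le_weight {K : Type} [Field K] [NumberField K] (F : MvPolynomial (Fin 2) K)
    (x : Fin 2 → K) {s t m : ℝ} (hs' : s = logHeight₁ (x 0)) (ht' : t = logHeight₁ (x 1))
    (hm : m = min s t) : F.degreeOf 0 * s + F.degreeOf 1 * t ≤
      weight F x + ((loss₀ F : ℝ) * (s - m) + (loss₁ F : ℝ) * (t - m) + (loss₂ F : ℝ) * m) := by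
  have hs : 0 ≤ s := by rw [hs']; exact zero_le_logHeight₁ _
  have ht : 0 ≤ t := by rw [ht']; exact zero_le_logHeight₁ _
  have hm0 : 0 ≤ m := by rw [hm]; exact le_min hs ht
  have hms : 0 ≤ s - m := by rw [hm]; exact sub_nonneg.2 (min_le_left _ _)
  have hmt : 0 ≤ t - m := by rw [hm]; exact sub_nonneg.2 (min_le_right _ _)
  obtain ⟨a, ha⟩ : ∃ a : ℕ, a = F.degreeOf 0 := ⟨_, rfl⟩
  obtain ⟨b, hb⟩ : ∃ b : ℕ, b = F.degreeOf 1 := ⟨_, rfl⟩
  unfold weight loss₀ loss₁ loss₂
  rw [← hs', ← ht', ← ha, ← hb]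
  by_cases h5 : a + b ≤ 5
  · rw [if_pos h5, if_pos h5, if_pos h5, if_pos h5]
    simp
  rw [if_neg h5, if_neg h5, if_neg h5, if_neg h5]
  have h1' : (a : ℝ) - 4 ≤ (a - 4 : ℕ) := by
    have : a ≤ (a - 4) + 4 := by omega
    have : (a : ℝ) ≤ (a - 4 : ℕ) + 4 := by exact_mod_cast this
    linarith
  have h2' : (b : ℝ) - 4 ≤ (b - 4 : ℕ) := by
    have : b ≤ (b - 4) + 4 := by omega
    have : (b : ℝ) ≤ (b - 4 : ℕ) + 4 := by exact_mod_cast this
    linarith
  have h3' : (a : ℝ) + b - 4 ≤ (a + b - 4 : ℕ) := by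
    have : a + b ≤ (a + b - 4) + 4 := by omega
    have : (a : ℝ) + b ≤ (a + b - 4 : ℕ) + 4 := by exact_mod_cast this
    linarith
  obtain ⟨D0, hD0⟩ : ∃ D : ℝ, D = (a - 4 : ℕ) := ⟨_, rfl⟩
  obtain ⟨D1, hD1⟩ : ∃ D : ℝ, D = (b - 4 : ℕ) := ⟨_, rfl⟩
  obtain ⟨D2, hD2⟩ : ∃ D : ℝ, D = (a + b - 4 : ℕ) := ⟨_, rfl⟩
  rw [← hD0, ← hD1, ← hD2]
  rw [← hD0] at h1'
  rw [← hD1] at h2'
  rw [← hD2] at h3'
  have hD00 : 0 ≤ D0 := by rw [hD0]; exact Nat.cast_nonneg _
  have hD10 : 0 ≤ D1 := by rw [hD1]; exact Nat.cast_nonneg _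
  have hD20 : 0 ≤ D2 := by rw [hD2]; exact Nat.cast_nonneg _
  have g0 : 0 ≤ D0 * (s - m) := mul_nonneg hD00 hms
  have g1 : 0 ≤ D1 * (t - m) := mul_nonneg hD10 hmt
  have g2 : 0 ≤ D2 * m := mul_nonneg hD20 hm0
  have e0 := mul_le_mul_of_nonneg_right h1' hms
  have e1 := mul_le_mul_of_nonneg_right h2' hmt
  have e2 := mul_le_mul_of_nonneg_right h3' hm0
  rcases min_choice ((a : ℝ) * s + b * t)
    (4 * max (if a = 0 then 0 else s) (if b = 0 then 0 else t)) with h | h
  · rw [h]
    linarith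
  rw [h]
  by_cases ha0 : a = 0
  · rw [if_pos ha0]
    by_cases hb0 : b = 0
    · omega
    · rw [if_neg hb0, max_eq_right ht]
      have ha0' : (a : ℝ) = 0 := by exact_mod_cast ha0
      rw [ha0'] at e2 ⊢
      linarith
  · rw [if_neg ha0]
    by_cases hb0 : b = 0
    · rw [if_pos hb0, max_eq_left hs]
      have hb0' : (b : ℝ) = 0 := by exact_mod_cast hb0
      rw [hb0'] at e2 ⊢
      linarith
    · rw [if_neg hb0]
      rcases le_total t s with hts | hts
      · have hmt' : m = t := by rw [hm]; exact min_eq_right hts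
        rw [max_eq_left hts]
        rw [hmt'] at e0 e2 g1 ⊢
        linarith
      · have hms' : m = s := by rw [hm]; exact min_eq_left hts
        rw [max_eq_right hts]
        rw [hms'] at e1 e2 g0 ⊢
        linarith

/-- the height relative to `D`, in terms of the components -/
theorem sum_degree {K : Type} [Field K] [NumberField K] {r : ℕ}
    (F : Fin r → MvPolynomial (Fin 2) K) (I : Finset (Fin 2)) (x : Fin 2 → K) :
    ∑ i, (degree F I i : ℝ) * logHeight₁ (x i) =
      ∑ j, ((F j).degreeOf 0 * logHeight₁ (x 0) + (F j).degreeOf 1 * logHeight₁ (x 1)) +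
        ∑ i ∈ I, logHeight₁ (x i) := by
  have h1 : ∀ i, (degree F I i : ℝ) * logHeight₁ (x i) =
      ∑ j, (F j).degreeOf i * logHeight₁ (x i) + if i ∈ I then logHeight₁ (x i) else 0 := by
    intro i
    unfold degree
    push_cast
    rw [add_mul, Finset.sum_mul]
    congr 1
    split_ifs <;> simp
  rw [Finset.sum_congr rfl fun i _ => h1 i, Finset.sum_add_distrib]
  congr 1
  · rw [Fin.sum_univ_two, ← Finset.sum_add_distrib]
  · rw [Finset.sum_ite_mem, Finset.univ_inter]

open Pool.Agent.N753.SU Pool.Agent.N753.LS Pool.Agent.H691R3 Pool.Agent.N445.UB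
  Pool.Agent.K9h89.AW in
/-- **Each component contributes four times the larger height.** Let `K` be a number field. There is
a set `E` of points `x = (x_0, x_1)` over `K` with the following properties.
(1) `E` has at most `2 exp (2 H₀ + 2 H₁ - √ max (H₀, H₁))` points with `h(x_0) ≤ H₀` and
`h(x_1) ≤ H₁`, for all `H₀, H₁ ≥ 0`.
(2) `E` has at most `2 e² (H / α + 1) exp (θ H - √ (H / (α + β)))` points with
`α h(x_0) + β h(x_1) ≤ H`, where `θ = max (2 / α, 2 / β)`, for all `α, β > 0`, `H ≥ 0`.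
(3) For all reduced effective divisors `D` of `ℙ¹ × ℙ¹` over `K`, all finite sets `S` of primes and
all `ε > 0` there are a finite set `Z` and a constant `C` such that
`∑ w_j(x) + ∑_{i ∈ I} h(x_i) - ε (h(x_0) + h(x_1)) ≤ N^(1)_S(D, x) + C`
for all `x` outside `E` and off `D` with `x_0, x_1 ∉ Z`. If `∑ max (a_j - 4, 0) ≤ 2`,
`∑ max (b_j - 4, 0) ≤ 2` and `∑ (a_j + b_j - 4) ≤ 4` (the sums over the components with
`a_j + b_j ≥ 6`), then `∑ (q_i - 2 - ε) h(x_i) ≤ N^(1)_S(D, x) + C` for these `x`. -/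
theorem result (K : Type) [Field K] [NumberField K] :
    ∃ E : Set (Fin 2 → K),
      (∀ H₀ H₁ : ℝ, 0 ≤ H₀ → 0 ≤ H₁ →
        {x | x ∈ E ∧ logHeight₁ (x 0) ≤ H₀ ∧ logHeight₁ (x 1) ≤ H₁}.Finite ∧
        ({x | x ∈ E ∧ logHeight₁ (x 0) ≤ H₀ ∧ logHeight₁ (x 1) ≤ H₁}.ncard : ℝ) ≤
          2 * Real.exp (2 * H₀ + 2 * H₁ - √(max H₀ H₁))) ∧
      (∀ α β H : ℝ, 0 < α → 0 < β → 0 ≤ H →
        {x | x ∈ E ∧ α * logHeight₁ (x 0) + β * logHeight₁ (x 1) ≤ H}.Finite ∧
        ({x | x ∈ E ∧ α * logHeight₁ (x 0) + β * logHeight₁ (x 1) ≤ H}.ncard : ℝ) ≤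
          2 * Real.exp 2 * (H / α + 1) *
            Real.exp (max (2 / α) (2 / β) * H - √(H / (α + β)))) ∧
      ∀ (r : ℕ) (F : Fin r → MvPolynomial (Fin 2) K) (I : Finset (Fin 2))
        (S : Set (HeightOneSpectrum (𝓞 K))), (∀ j, Irreducible (F j)) →
        (∀ j k, j ≠ k → ¬ Associated (F j) (F k)) → S.Finite →
        ∀ ε : ℝ, 0 < ε → ∃ (Z : Finset K) (C : ℝ), ∀ x : Fin 2 → K, x ∉ E → x 0 ∉ Z → x 1 ∉ Z →
          (∀ j, MvPolynomial.eval x (F j) ≠ 0) →
            ∑ j, weight (F j) x + ∑ i ∈ I, logHeight₁ (x i) -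
                ε * (logHeight₁ (x 0) + logHeight₁ (x 1)) ≤ counting S F I x + C ∧
              (∑ j, loss₀ (F j) ≤ 2 → ∑ j, loss₁ (F j) ≤ 2 → ∑ j, loss₂ (F j) ≤ 4 →
                ∑ i, ((degree F I i : ℝ) - 2 - ε) * logHeight₁ (x i) ≤
                  counting S F I x + C) := by
  classical
  have hh : ∀ z : K, hr (aff z) = logHeight₁ z := fun z => hr_aff z
  obtain ⟨E, hE, hmain⟩ := all_box4 K tools
  refine ⟨E, ?_, ?_, ?_⟩
  · intro H₀ H₁ h0 h1
    have hset : {x : Fin 2 → K | x ∈ E ∧ logHeight₁ (x 0) ≤ H₀ ∧ logHeight₁ (x 1) ≤ H₁} =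
        E ∩ bx2 K H₀ H₁ := by
      ext x
      unfold bx2
      simp only [hh]
      rfl
    rw [hset]
    exact ⟨(bx2_fin H₀ H₁).subset Set.inter_subset_right, hE H₀ H₁ h0 h1⟩
  · intro α β H hα hβ hH
    have h := ample hE hα hβ hH
    simp only [hh] at h
    exact h
  · intro r F I S hF hFF hS ε hε
    have hF0 : ∀ j, F j ≠ 0 := fun j => (hF j).ne_zero
    have hcount : ∀ x, counting S F I x = cnt1 S F I x := fun x => rfl
    obtain ⟨C1, hC1, h1⟩ := cnt1_ge hS F hF0 I
    obtain ⟨Z, h0, h2⟩ := hmain r F I hF hFF ε hε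
    obtain ⟨Q, hQ⟩ : ∃ Q : ℝ, Q = ∑ i, (degree F I i : ℝ) := ⟨_, rfl⟩
    have hQ0 : 0 ≤ Q := by
      rw [hQ]
      exact Finset.sum_nonneg fun i _ => Nat.cast_nonneg _
    refine ⟨Z, C1 + Q * max h0 0, ?_⟩
    intro x hxE hx0 hx1 hx
    have hs : 0 ≤ logHeight₁ (x 0) := zero_le_logHeight₁ _
    have ht : 0 ≤ logHeight₁ (x 1) := zero_le_logHeight₁ _
    have hle : ∀ i, logHeight₁ (x i) ≤ htm x := fun i => le_htm x i
    have hm : htm x ≤ logHeight₁ (x 0) + logHeight₁ (x 1) := by
      refine htm_le two_pos fun i => ?_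
      fin_cases i
      · exact le_add_of_nonneg_right ht
      · exact le_add_of_nonneg_left hs
    have hεm := mul_le_mul_of_nonneg_left hm hε.le
    have hsum := sum_degree F I x
    have hTT := TT_weight F I x
    have hwle : ∑ j, weight (F j) x ≤ ∑ j, ((F j).degreeOf 0 * logHeight₁ (x 0) +
        (F j).degreeOf 1 * logHeight₁ (x 1)) := Finset.sum_le_sum fun j _ => weight_le (F j) x
    have hQm : 0 ≤ Q * max h0 0 := mul_nonneg hQ0 (le_max_right _ _)
    have hmainx : ∑ j, weight (F j) x + ∑ i ∈ I, logHeight₁ (x i) -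
        ε * (logHeight₁ (x 0) + logHeight₁ (x 1)) ≤ counting S F I x + (C1 + Q * max h0 0) := by
      rw [hcount]
      by_cases hcase : h0 ≤ htm x
      · have h3 := h2 x hxE hx0 hx1 hcase hx
        have h4 := h1 x hx
        rw [hTT] at h3
        linarith
      · rw [not_le] at hcase
        have h3 : htm x ≤ max h0 0 := hcase.le.trans (le_max_left _ _)
        have h5 := cnt1_nonneg S I hx
        have h6 : ∑ i, (degree F I i : ℝ) * logHeight₁ (x i) ≤ Q * max h0 0 := by
          rw [hQ, Finset.sum_mul]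
          exact Finset.sum_le_sum fun i _ =>
            mul_le_mul_of_nonneg_left ((hle i).trans h3) (Nat.cast_nonneg _)
        have h7 : 0 ≤ ε * (logHeight₁ (x 0) + logHeight₁ (x 1)) := by positivity
        linarith
    refine ⟨hmainx, fun hl0 hl1 hl2 => ?_⟩
    obtain ⟨s, hs'⟩ : ∃ s : ℝ, s = logHeight₁ (x 0) := ⟨_, rfl⟩
    obtain ⟨t, ht'⟩ : ∃ t : ℝ, t = logHeight₁ (x 1) := ⟨_, rfl⟩
    obtain ⟨m, hm'⟩ : ∃ m : ℝ, m = min s t := ⟨_, rfl⟩
    have hm0 : 0 ≤ m := by rw [hm', hs', ht']; exact le_min hs ht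
    have hms : 0 ≤ s - m := by rw [hm']; exact sub_nonneg.2 (min_le_left _ _)
    have hmt : 0 ≤ t - m := by rw [hm']; exact sub_nonneg.2 (min_le_right _ _)
    have h3 : ∑ j, ((F j).degreeOf 0 * logHeight₁ (x 0) +
        (F j).degreeOf 1 * logHeight₁ (x 1)) ≤ ∑ j, weight (F j) x +
          ((∑ j, (loss₀ (F j) : ℝ)) * (s - m) + (∑ j, (loss₁ (F j) : ℝ)) * (t - m) +
            (∑ j, (loss₂ (F j) : ℝ)) * m) := by
      rw [Finset.sum_mul, Finset.sum_mul, Finset.sum_mul, ← Finset.sum_add_distrib,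
        ← Finset.sum_add_distrib, ← Finset.sum_add_distrib, ← hs', ← ht']
      exact Finset.sum_le_sum fun j _ => le_weight (F j) x hs' ht' hm'
    have h40 : (∑ j, (loss₀ (F j) : ℝ)) ≤ 2 := by exact_mod_cast hl0
    have h41 : (∑ j, (loss₁ (F j) : ℝ)) ≤ 2 := by exact_mod_cast hl1
    have h42 : (∑ j, (loss₂ (F j) : ℝ)) ≤ 4 := by exact_mod_cast hl2
    have h50 := mul_le_mul_of_nonneg_right h40 hms
    have h51 := mul_le_mul_of_nonneg_right h41 hmt
    have h52 := mul_le_mul_of_nonneg_right h42 hm0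
    have h6 : ∑ i, ((degree F I i : ℝ) - 2 - ε) * logHeight₁ (x i) =
        ∑ i, (degree F I i : ℝ) * logHeight₁ (x i) -
          2 * (logHeight₁ (x 0) + logHeight₁ (x 1)) -
          ε * (logHeight₁ (x 0) + logHeight₁ (x 1)) := by
      rw [Fin.sum_univ_two, Fin.sum_univ_two]
      ring
    rw [h6]
    linarith

end Pool.Agent.Results.MP_542436_nt.AnticanonicalWeight
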