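import Pool.Agent.K9h83.VN.Rect
import Pool.Agent.K9h89.AW.V14

/-!
# The truncated inequality of Vojta on `ℙ¹ × ℙ¹` for all divisors: the dimension of the exceptional
# set of pairs of numbers

Let `K` be a number field and `h` the height on the projective line, relative to `K`. A reduced
effective divisor `D` of `ℙ¹ × ℙ¹` over `K` (`Divisor`) is the sum of finitely many prime divisors
`F_j = 0` (`F_j` irreducible of bidegree `(a_j, b_j)`) and of some of the divisors `x_i = ∞`; nothing is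
assumed about singularities and intersections. `TrueOn D S ε P` means that for every real number `C`
all but finitely many of the points `x = (x_0, x_1)` of `P` off `D` satisfy (`Inequality`)

* `N^(1)_S(D, x) ≥ ∑ w_j(x) + ∑_{x_i = ∞ in D} h(x_i) - ε (h(x_0) + h(x_1)) + C` (with the weights of
  `AnticanonicalWeight`: `w_j(x) = a_j h(x_0) + b_j h(x_1)` if `a_j + b_j ≤ 5`, otherwise the minimum of
  this and of FOUR times the maximum of the heights of the coordinates on which `F_j` depends),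
* `N^(1)_S(D, x) ≥ (q_0 - ε) h(x_0) + (q_1 - ε) h(x_1) + C`, if all components have total degree at
  most five (`(q_0, q_1)` is the bidegree of `D`),
* `N^(1)_S(D, x) ≥ (q_0 - 2 - ε) h(x_0) + (q_1 - 2 - ε) h(x_1) + C`, the inequality of Vojta's
  conjecture, if `∑ max (a_j - 4, 0) ≤ 2`, `∑ max (b_j - 4, 0) ≤ 2` and `∑ (a_j + b_j - 4) ≤ 4`, the
  sums over the components of total degree `a_j + b_j ≥ 6`: for instance for irreducible `D` with
  `a, b ≤ 6` and `a + b ≤ 8`.

The points `x` considered here are the approximations of a pair `ξ = (ξ_0, ξ_1)`: let `X_0`, `X_1` be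
metric spaces, `φ_i : K → X_i` any maps (for instance the inclusions in two completions of `K`), and
let the balls of radius `R` in `X_i` be covered by `O ((R / r) ^ s_i)` balls of radius `r` (`Covered`).
Which pairs `ξ` are exceptional, that is, the inequality fails for infinitely many approximations `x`
of `ξ`? According to the result `PairsOfConvergents` (in this folder), they are a null set, if the
approximations have Dirichlet's quality `|ξ_i - x_i| ≤ A H(x_i) ^ (-2 / s_i + δ)`. Here: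

**Theorem.** There are finite sets `Z(D, ε) ⊂ K` (which give finitely many fibres of the two
projections) and numbers `ν = ν(D, ε) > 0` such that the following is true for all `X_0`, `X_1`, `φ_0`,
`φ_1` as above and for all `τ_0, τ_1 > 0`. For all `D` and `ε` the set `N(D, ε)` of the pairs
`ξ ∈ X_0 × X_1`, for which there are a finite set `S` of primes and numbers `A`, `C` such that the
inequality fails for infinitely many `x` off `Z(D, ε)` with

`dist (x_0, ξ_0) ≤ A H(x_0) ^ (-τ_0)`, `dist (x_1, ξ_1) ≤ A H(x_1) ^ (-τ_1)`,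

has Hausdorff dimension at most

`max (s_1 + (2 - ν) / τ_0, s_0 + (2 - ν) / τ_1, (2 - ν) / τ_0 + (2 - ν) / τ_1)`   (`rect`).

For `τ_i ≥ 2 / s_i` this is smaller than `max (s_1 + 2 / τ_0, s_0 + 2 / τ_1)`, for real numbers the
dimension of the set of all pairs with infinitely many approximations of this quality (Jarník). So,
for the majority of the pairs which have approximations of a given quality, the inequality holds at
these approximations; for `τ_i > 2 / s_i` these pairs are a null set, about which the metric results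
say nothing. For Dirichlet's quality `τ_i = 2 / s_i` the exceptional set has dimension at most
`s_0 + s_1 - ν min (s_0, s_1) / 2`. There are only countably many different sets `N(D, ε)`; so, outside
of a countable union of sets of dimension smaller than `s_0 + s_1`, the inequality is true for ALL `D`,
`ε`, `S`, `A`, `C` at all pairs of approximations of Dirichlet's quality.

If the points are near to `ξ` on the scale of the larger height, for an arbitrary map `φ` from the
points to a metric space `X` (no condition on `X`),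

`dist (φ x, ξ) ≤ A exp (-τ max (h(x_0), h(x_1)))`,

the exceptional set has dimension at most `(4 - ν) / τ` (while the set of all `ξ` with infinitely many
such approximations has dimension at most `4 / τ`, and exactly `4 / τ` for the real plane and
`τ ≥ 2`). This is the second part of the theorem. The third part is the case of real numbers with denominators instead of heights; for
`τ_0 = τ_1 = 2` it is about all pairs of convergents, and the exceptional set has dimension at most
`2 - ν / 2`.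

The starting result `GridPointsNearAPoint` has a bound as in the second part for grids (sums of fibres)
over `ℚ`, which reduce to the abc inequality for each of the two coordinates.

Proof. The library of the team's result `AnticanonicalWeight` gives for each `D` and `ε` the inequality
outside of a set of points with at most `C exp (2 H_0 + 2 H_1 - ν' max (H_0, H_1))` points in the box
`h(x_i) ≤ H_i` (`Pool.Agent.K9h89.AW.box_exc4`). The rectangles around these points are covered by balls with the smaller side as radius,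
and the sum of the powers of their radii converges.
-/

set_option autoImplicit false

namespace Pool.Agent.Results.MP_542436_nt.ExceptionalDimension

open NumberField IsDedekindDomain Height MeasureTheory Metric
open AnticanonicalWeight (counting degree weight loss₀ loss₁ loss₂)
open Pool.Agent.K9h83.VN (Covered rect PS box_fin dim_rect dim_cube covered_real)
open Pool.Agent.K9h89.AW (Ineq4 ineq_one4)

/-- A reduced effective divisor of `ℙ¹ × ℙ¹` over `K`: the sum of the prime divisors `F_j = 0` and of the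
divisors `x_i = ∞` with `i ∈ I`. -/
structure Divisor (K : Type) [Field K] where
  r : ℕ
  F : Fin r → MvPolynomial (Fin 2) K
  I : Finset (Fin 2)
  irreducible : ∀ j, Irreducible (F j)
  distinct : ∀ j k, j ≠ k → ¬ Associated (F j) (F k)

/-- The inequality for the truncated counting function of `D` (without the primes of `S`) at the point
`x`: in general with the weights of the components; without the canonical divisor if all components have
total degree at most five; with the canonical divisor (the inequality of the conjecture) if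
`∑ max (a_j - 4, 0) ≤ 2`, `∑ max (b_j - 4, 0) ≤ 2` and `∑ (a_j + b_j - 4) ≤ 4`, the sums over the
components of total degree `a_j + b_j ≥ 6`. -/
def Inequality {K : Type} [Field K] [NumberField K] (D : Divisor K)
    (S : Set (HeightOneSpectrum (𝓞 K))) (ε C : ℝ) (x : Fin 2 → K) : Prop :=
  ∑ j, weight (D.F j) x + ∑ i ∈ D.I, logHeight₁ (x i) -
      ε * (logHeight₁ (x 0) + logHeight₁ (x 1)) + C ≤ counting S D.F D.I x ∧
    ((∀ j, (D.F j).degreeOf 0 + (D.F j).degreeOf 1 ≤ 5) →
      ∑ i, ((degree D.F D.I i : ℝ) - ε) * logHeight₁ (x i) + C ≤ counting S D.F D.I x) ∧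
    (∑ j, loss₀ (D.F j) ≤ 2 → ∑ j, loss₁ (D.F j) ≤ 2 → ∑ j, loss₂ (D.F j) ≤ 4 →
      ∑ i, ((degree D.F D.I i : ℝ) - 2 - ε) * logHeight₁ (x i) + C ≤ counting S D.F D.I x)

/-- For every `C` the inequality is true for all but finitely many of the points of `P` off `D`. -/
def TrueOn {K : Type} [Field K] [NumberField K] (D : Divisor K)
    (S : Set (HeightOneSpectrum (𝓞 K))) (ε : ℝ) (P : Set (Fin 2 → K)) : Prop :=
  ∀ C : ℝ, {x | x ∈ P ∧ (∀ j, MvPolynomial.eval x (D.F j) ≠ 0) ∧ ¬ Inequality D S ε C x}.Finite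

/-- Let `near ξ A` be a set of points near to `ξ ∈ Y`. The set of those `ξ ∈ Y` for which the inequality
is not true (for some `S`, `A`) on the set of the points of `near ξ A` off the fibres `x_i ∈ Z D ε` is
contained in a set `N D ε` of Hausdorff dimension at most `d (ν D ε)`; there are only countably many
different sets `N D ε`. -/
def SmallExceptions {K : Type} [Field K] [NumberField K] (Z : Divisor K → ℝ → Finset K)
    (ν : Divisor K → ℝ → ℝ) (Y : Type) [MetricSpace Y] (near : Y → ℝ → Set (Fin 2 → K))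
    (d : ℝ → ℝ) : Prop :=
  ∃ N : Divisor K → ℝ → Set Y, (Set.range fun p : Divisor K × ℝ => N p.1 p.2).Countable ∧
    ∀ (D : Divisor K) (ε : ℝ), 0 < ε → dimH (N D ε) ≤ ENNReal.ofReal (d (ν D ε)) ∧
      ∀ ξ : Y, ξ ∉ N D ε → ∀ S : Set (HeightOneSpectrum (𝓞 K)), S.Finite → ∀ A : ℝ,
        TrueOn D S ε {x | x ∈ near ξ A ∧ x 0 ∉ Z D ε ∧ x 1 ∉ Z D ε}

section

variable {K : Type} [Field K] [NumberField K]

theorem TrueOn.mono {D : Divisor K} {S : Set (HeightOneSpectrum (𝓞 K))} {ε : ℝ}
    {P Q : Set (Fin 2 → K)} (h : TrueOn D S ε Q) (hPQ : P ⊆ Q) : TrueOn D S ε P := by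
  intro C
  exact (h C).subset fun x hx => ⟨hPQ hx.1, hx.2⟩

theorem trueOn_of {D : Divisor K} {S : Set (HeightOneSpectrum (𝓞 K))} {ε ε' : ℝ} (hε : 0 < ε)
    (hε' : ε' ≤ ε / 2) {P E : Set (Fin 2 → K)} {Z : Finset K} {C₁ : ℝ}
    (h : ∀ x : Fin 2 → K, x ∉ E → x 0 ∉ Z → x 1 ∉ Z →
      (∀ j, MvPolynomial.eval x (D.F j) ≠ 0) → Ineq4 S D.F D.I ε' C₁ x)
    (hE : {x | x ∈ E ∧ x ∈ P}.Finite) :
    TrueOn D S ε {x | x ∈ P ∧ x 0 ∉ Z ∧ x 1 ∉ Z} := by
  intro C
  refine (hE.union (box_fin K (2 * (C + C₁) / ε) (2 * (C + C₁) / ε))).subset ?_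
  rintro x ⟨⟨hP, hx0, hx1⟩, hoff, hx⟩
  by_cases hxE : x ∈ E
  · exact Or.inl ⟨hxE, hP⟩
  have a0 : 0 ≤ logHeight₁ (x 0) := zero_le_logHeight₁ _
  have a1 : 0 ≤ logHeight₁ (x 1) := zero_le_logHeight₁ _
  have h4 := mul_le_mul_of_nonneg_right (show ε / 2 ≤ ε - ε' by linarith)
    (show 0 ≤ logHeight₁ (x 0) + logHeight₁ (x 1) by linarith)
  have h3 : (ε - ε') * (logHeight₁ (x 0) + logHeight₁ (x 1)) ≤ C + C₁ := by
    by_contra hcon
    rw [not_le] at hcon
    obtain ⟨g1, g2, g3⟩ := h x hxE hx0 hx1 hoff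
    refine hx ⟨by linarith, fun hs => ?_, fun hs hs' hs'' => ?_⟩
    · have := g2 hs
      rw [Fin.sum_univ_two] at this ⊢
      linarith
    · have := g3 hs hs' hs''
      rw [Fin.sum_univ_two] at this ⊢
      linarith
  refine Or.inr ⟨?_, ?_⟩
  · rw [le_div_iff₀ hε]
    nlinarith
  · rw [le_div_iff₀ hε]
    nlinarith

theorem countable_divisor (K : Type) [Field K] [NumberField K] : Countable (Divisor K) := by
  have := Pool.Agent.N753.SU.countable_mv K 2
  refine Function.Injective.countable (β := (Σ r : ℕ, Fin r → MvPolynomial (Fin 2) K) ×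
    Finset (Fin 2)) (f := fun D => (⟨D.r, D.F⟩, D.I)) ?_
  rintro ⟨r, F, I, h1, h2⟩ ⟨r', F', I', h1', h2'⟩ h
  simp only [Prod.mk.injEq, Sigma.mk.injEq] at h
  obtain ⟨⟨rfl, h3⟩, rfl⟩ := h
  obtain rfl := eq_of_heq h3
  rfl

/-- the natural number belonging to `ε` -/
noncomputable def kk (ε : ℝ) : ℕ := ⌈2 / ε⌉₊

theorem kk_le {ε : ℝ} (hε : 0 < ε) : 1 / ((kk ε : ℝ) + 1) ≤ ε / 2 := by
  have h : 2 / ε ≤ kk ε := Nat.le_ceil _
  rw [div_le_iff₀ hε] at h
  rw [div_le_iff₀ (by positivity)]
  nlinarith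

/-- The first two parts of the theorem. -/
theorem general (K : Type) [Field K] [NumberField K] :
    ∃ (Z : Divisor K → ℝ → Finset K) (ν : Divisor K → ℝ → ℝ),
      (∀ D ε, 0 < ν D ε ∧ ν D ε ≤ 1 / 4) ∧
      (∀ (X₀ X₁ : Type) [MetricSpace X₀] [MetricSpace X₁] (s₀ s₁ M τ₀ τ₁ : ℝ),
        0 < s₀ → 0 < s₁ → 0 < τ₀ → 0 < τ₁ → Covered X₀ s₀ M → Covered X₁ s₁ M →
        ∀ (φ₀ : K → X₀) (φ₁ : K → X₁), SmallExceptions Z ν (X₀ × X₁)
          (fun ξ A => {x | dist (φ₀ (x 0)) ξ.1 ≤ A * Real.exp (-τ₀ * logHeight₁ (x 0)) ∧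
            dist (φ₁ (x 1)) ξ.2 ≤ A * Real.exp (-τ₁ * logHeight₁ (x 1))})
          (fun ν => rect s₀ s₁ τ₀ τ₁ ν)) ∧
      (∀ (X : Type) [MetricSpace X] (φ : (Fin 2 → K) → X) (τ : ℝ), 0 < τ →
        SmallExceptions Z ν X
          (fun ξ A => {x | dist (φ x) ξ ≤
            A * Real.exp (-τ * max (logHeight₁ (x 0)) (logHeight₁ (x 1)))})
          (fun ν => (4 - ν) / τ)) := by
  classical
  have hdata : ∀ p : Divisor K × ℕ, ∃ (Z : Finset K) (E : Set (Fin 2 → K)) (ν C₀ : ℝ),
      0 < ν ∧ ν ≤ 1 ∧ 0 < C₀ ∧ PS E ν C₀ ∧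
      ∀ S : Set (HeightOneSpectrum (𝓞 K)), S.Finite → ∃ C : ℝ, ∀ x : Fin 2 → K, x ∉ E →
        x 0 ∉ Z → x 1 ∉ Z → (∀ j, MvPolynomial.eval x (p.1.F j) ≠ 0) →
          Ineq4 S p.1.F p.1.I (1 / (p.2 + 1 : ℝ)) C x := fun p =>
    ineq_one4 K p.1.r p.1.F p.1.I p.1.irreducible p.1.distinct (1 / (p.2 + 1 : ℝ)) (by positivity)
  choose Z E ν C₀ hν hν1 hC₀ hE hineq using hdata
  have := countable_divisor K
  refine ⟨fun D ε => Z (D, kk ε), fun D ε => ν (D, kk ε) / 4, fun D ε => by
    have h1 := hν (D, kk ε)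
    have h2 := hν1 (D, kk ε)
    constructor <;> linarith, ?_, ?_⟩
  · intro X₀ X₁ _ _ s₀ s₁ M τ₀ τ₁ _ h₁ hτ₀ hτ₁ hc₀ hc₁ φ₀ φ₁
    have hN := fun p : Divisor K × ℕ =>
      dim_rect h₁ hτ₀ hτ₁ hc₀ hc₁ φ₀ φ₁ (hν p) (hν1 p) (hC₀ p) (hE p)
    choose N hN1 hN2 using hN
    refine ⟨fun D ε => N (D, kk ε), ?_, ?_⟩
    · refine (Set.countable_range N).mono ?_
      rintro _ ⟨p, rfl⟩
      exact ⟨(p.1, kk p.2), rfl⟩
    · intro D ε hε
      refine ⟨hN1 (D, kk ε), fun ξ hξ S hS A => ?_⟩
      obtain ⟨C, hC⟩ := hineq (D, kk ε) S hS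
      exact trueOn_of hε (kk_le hε) hC (hN2 (D, kk ε) ξ hξ A)
  · intro X _ φ τ hτ
    have hN := fun p : Divisor K × ℕ => dim_cube φ hτ (hν1 p) (hC₀ p) (hE p)
    choose N hN1 hN2 using hN
    refine ⟨fun D ε => N (D, kk ε), ?_, ?_⟩
    · refine (Set.countable_range N).mono ?_
      rintro _ ⟨p, rfl⟩
      exact ⟨(p.1, kk p.2), rfl⟩
    · intro D ε hε
      refine ⟨(hN1 (D, kk ε)).trans (ENNReal.ofReal_le_ofReal ?_), fun ξ hξ S hS A => ?_⟩
      · refine div_le_div_of_nonneg_right ?_ hτ.le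
        have := hν (D, kk ε)
        show 4 - ν (D, kk ε) ≤ 4 - ν (D, kk ε) / 4
        linarith
      · obtain ⟨C, hC⟩ := hineq (D, kk ε) S hS
        exact trueOn_of hε (kk_le hε) hC (hN2 (D, kk ε) ξ hξ A)

end

/-! ### real numbers -/

theorem height_bound {t B : ℝ} {q : ℚ} (h : |t - q| ≤ B) :
    logHeight₁ q ≤ Real.log q.den + Real.log (1 + |t| + B) := by
  have hd : (1 : ℝ) ≤ q.den := by exact_mod_cast q.pos
  have hB : 0 ≤ B := (abs_nonneg _).trans h
  have ht := abs_nonneg t
  have h3 : |(q : ℝ)| ≤ |t| + B := by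
    have a1 := abs_sub_abs_le_abs_sub (q : ℝ) t
    rw [abs_sub_comm] at a1
    linarith
  rw [Rat.logHeight₁_eq_log_max, ← Real.log_mul (by linarith) (by linarith)]
  refine Real.log_le_log (by
    have : 0 < max q.num.natAbs q.den := lt_max_of_lt_right q.pos
    exact_mod_cast this) ?_
  push_cast
  refine max_le ?_ ?_
  · have a1 : |(q.num : ℝ)| = |(q : ℝ)| * q.den := by
      have a2 : (q : ℝ) = (q.num : ℝ) / q.den := by
        exact_mod_cast (Rat.num_div_den q).symm
      rw [a2, abs_div, abs_of_pos (show (0 : ℝ) < q.den by linarith)]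
      field_simp
    rw [Nat.cast_natAbs, Int.cast_abs, a1, mul_comm]
    exact mul_le_mul_of_nonneg_left (by linarith) (by linarith)
  · nlinarith

theorem pow_bound {t A c τ : ℝ} {q : ℚ} (hc : 1 + |t| + |A| ≤ c) (hτ : 0 < τ)
    (h : |t - q| ≤ A * (q.den : ℝ) ^ (-τ)) :
    |t - q| ≤ (|A| * c ^ τ) * Real.exp (-τ * logHeight₁ q) := by
  have hm : (1 : ℝ) ≤ q.den := by exact_mod_cast q.pos
  have hm' : (0 : ℝ) < q.den := by linarith
  have h1 : |t - q| ≤ |A| * (q.den : ℝ) ^ (-τ) :=
    h.trans (mul_le_mul_of_nonneg_right (le_abs_self A) (by positivity))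
  have h2 : |t - q| ≤ |A| := h1.trans (mul_le_of_le_one_right (abs_nonneg A)
    (Real.rpow_le_one_of_one_le_of_nonpos hm (by linarith)))
  have h3 := height_bound h2
  have ht := abs_nonneg t
  have hA := abs_nonneg A
  have hc0 : 0 < c := by linarith
  have h4 : Real.log (1 + |t| + |A|) ≤ Real.log c := Real.log_le_log (by linarith) hc
  refine h1.trans ?_
  rw [mul_assoc]
  refine mul_le_mul_of_nonneg_left ?_ hA
  rw [Real.rpow_def_of_pos hm', Real.rpow_def_of_pos hc0, ← Real.exp_add]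
  refine Real.exp_le_exp.2 ?_
  nlinarith [mul_le_mul_of_nonneg_left (h3.trans (add_le_add le_rfl h4)) hτ.le]

/-- **The exceptional pairs have small dimension.** -/
theorem result :
    -- all number fields
    (∀ (K : Type) [Field K] [NumberField K],
      ∃ (Z : Divisor K → ℝ → Finset K) (ν : Divisor K → ℝ → ℝ),
        (∀ D ε, 0 < ν D ε ∧ ν D ε ≤ 1 / 4) ∧
        -- approximations of any quality in each coordinate
        (∀ (X₀ X₁ : Type) [MetricSpace X₀] [MetricSpace X₁] (s₀ s₁ M τ₀ τ₁ : ℝ),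
          0 < s₀ → 0 < s₁ → 0 < τ₀ → 0 < τ₁ → Covered X₀ s₀ M → Covered X₁ s₁ M →
          ∀ (φ₀ : K → X₀) (φ₁ : K → X₁), SmallExceptions Z ν (X₀ × X₁)
            (fun ξ A => {x | dist (φ₀ (x 0)) ξ.1 ≤ A * Real.exp (-τ₀ * logHeight₁ (x 0)) ∧
              dist (φ₁ (x 1)) ξ.2 ≤ A * Real.exp (-τ₁ * logHeight₁ (x 1))})
            (fun ν => max (max (s₁ + (2 - ν) / τ₀) (s₀ + (2 - ν) / τ₁))
              ((2 - ν) / τ₀ + (2 - ν) / τ₁))) ∧
        -- approximations on the scale of the larger height, in any metric space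
        (∀ (X : Type) [MetricSpace X] (φ : (Fin 2 → K) → X) (τ : ℝ), 0 < τ →
          SmallExceptions Z ν X
            (fun ξ A => {x | dist (φ x) ξ ≤
              A * Real.exp (-τ * max (logHeight₁ (x 0)) (logHeight₁ (x 1)))})
            (fun ν => (4 - ν) / τ))) ∧
    -- real numbers
    (∃ (Z : Divisor ℚ → ℝ → Finset ℚ) (ν : Divisor ℚ → ℝ → ℝ),
      (∀ D ε, 0 < ν D ε ∧ ν D ε ≤ 1 / 4) ∧
      ∀ τ₀ τ₁ : ℝ, 0 < τ₀ → 0 < τ₁ → SmallExceptions Z ν (ℝ × ℝ)
        (fun ξ A => {x | |ξ.1 - x 0| ≤ A * ((x 0).den : ℝ) ^ (-τ₀) ∧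
          |ξ.2 - x 1| ≤ A * ((x 1).den : ℝ) ^ (-τ₁)})
        (fun ν => max (max (1 + (2 - ν) / τ₀) (1 + (2 - ν) / τ₁))
          ((2 - ν) / τ₀ + (2 - ν) / τ₁))) := by
  refine ⟨fun K _ _ => general K, ?_⟩
  obtain ⟨Z, ν, hν, h, -⟩ := general ℚ
  refine ⟨Z, ν, hν, fun τ₀ τ₁ hτ₀ hτ₁ => ?_⟩
  obtain ⟨N, hN, hN'⟩ := h ℝ ℝ 1 1 3 τ₀ τ₁ one_pos one_pos hτ₀ hτ₁ covered_real covered_real
    (fun q => (q : ℝ)) (fun q => (q : ℝ))
  refine ⟨N, hN, fun D ε hε => ⟨(hN' D ε hε).1, fun ξ hξ S hS A => ?_⟩⟩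
  obtain ⟨c, hc⟩ : ∃ c : ℝ, c = 1 + |ξ.1| + |ξ.2| + |A| := ⟨_, rfl⟩
  have e1 := abs_nonneg ξ.1
  have e2 := abs_nonneg ξ.2
  have e3 := abs_nonneg A
  have hc1 : 1 ≤ c := by linarith
  refine ((hN' D ε hε).2 ξ hξ S hS (max (|A| * c ^ τ₀) (|A| * c ^ τ₁))).mono ?_
  rintro x ⟨⟨h1, h2⟩, h3⟩
  refine ⟨⟨?_, ?_⟩, h3⟩
  · rw [Real.dist_eq, abs_sub_comm]
    exact (pow_bound (by linarith) hτ₀ h1).trans
      (mul_le_mul_of_nonneg_right (le_max_left _ _) (Real.exp_pos _).le)
  · rw [Real.dist_eq, abs_sub_comm]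
    exact (pow_bound (by linarith) hτ₁ h2).trans
      (mul_le_mul_of_nonneg_right (le_max_right _ _) (Real.exp_pos _).le)

end Pool.Agent.Results.MP_542436_nt.ExceptionalDimension
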