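import Mathlib
import Pool.Agent.K9h89.AW.V13

/-!
# Vojta's conjecture with truncated counting function on `ℙ¹ × ℙ¹`: all divisors, at all the pairs of
# good approximations of almost all pairs of numbers

Let `K` be a number field. The points `x = (x_0, x_1)` of `ℙ¹ × ℙ¹` over `K` are considered whose two
coordinates are good approximations of two numbers `ω_0`, `ω_1`, which may be real or complex numbers or
elements of any completions of `K`. The quality of the approximation is the one of Dirichlet's theorem,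
and even worse: `|x_i - ω_i| ≤ A H(x_i) ^ (-2 + δ)`; the sizes of `x_0` and of `x_1` are not related. For
`K = ℚ` and real numbers `ω_i`, all PAIRS OF CONVERGENTS `(p_k / q_k, p'_l / q'_l)` of the continued
fractions, `k, l = 0, 1, 2, …`, have this property, and also all pairs of their intermediate fractions.

A reduced effective divisor `D` of `ℙ¹ × ℙ¹` over `K` (`Divisor`) is the sum of finitely many prime
divisors `F_j = 0` (`F_j` an irreducible polynomial in `x_0, x_1` over `K`, of bidegree `(a_j, b_j)`) and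
of some of the divisors `x_i = ∞`. No condition is put on the singularities and the intersections.

**Theorem.** There are numbers `δ(D, ε) > 0` and finite sets `Z(D, ε) ⊂ K` (which give finitely many
fibres of the two projections) such that for almost all pairs `(ω_0, ω_1)` the following is true for ALL
divisors `D`, ALL `ε > 0`, all finite sets `S` of primes and all `A` simultaneously: there is a constant
`C` such that

`N^(1)_S(D, x) ≥ ∑ w_j(x) + ∑_{x_i = ∞ in D} h(x_i) - ε (h(x_0) + h(x_1)) - C`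

at ALL points `x` off `D` and `Z(D, ε)` with `|x_i - ω_i| ≤ A H(x_i) ^ (-2 + δ(D, ε))`. Here `w_j(x)` is
`a_j h(x_0) + b_j h(x_1)` if `a_j + b_j ≤ 5`, and otherwise the minimum of this and of FOUR times the
maximum of the heights of those coordinates on which `F_j` depends (`weight`). So, if all components of
`D` have total degree at most five, the inequality `N^(1)_S(D, x) ≥ h_{K_X + D}(x) - ε h_A(x) - C` of the
conjecture holds at all these points even without `K_X`. It holds with `K_X` if `∑ max (a_j - 4, 0) ≤ 2`,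
`∑ max (b_j - 4, 0) ≤ 2` and `∑ (a_j + b_j - 4) ≤ 4`, the sums over the components with
`a_j + b_j ≥ 6`: for instance if `D` is irreducible with `a, b ≤ 6` and `a + b ≤ 8`.

The first part of the theorem is about arbitrary measure spaces `Ω` with distances `d_i (z, ω)`, `z ∈ K`,
such that the measure of `{ω | d_0 (z_0, ω) ≤ t_0, d_1 (z_1, ω) ≤ t_1}` is at most `B t_0 t_1`
(`Spread`); for the Haar measure of the product `K_v × K_w` of two completions, or an absolutely continuous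
measure with bounded density, one takes `d_0 (z, ω) = |z - ω_0|_v ^ [K_v : ℚ_v]` and similarly for
`w`. The second part is the case of real numbers and `K = ℚ`, where `H(x_i)` is replaced by the
denominator.

The starting result `AllBoxes` has the inequality outside of a set of density zero in all boxes; the
points near `(ω_0, ω_1)` are much fewer than the exceptional points allowed there: in the box
`h(x_i) ≤ H_i` there are about `exp (δ (H_0 + H_1))` of them. The starting result `GridPointsNearAPoint` is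
about grids only (sums of fibres), and about points the two coordinates of which approximate on the
same scale `max (H(x_0), H(x_1))`.

Proof: the number of the exceptional points of one divisor in a box has a power saving, whatever the
shape of the box is (`Pool.Agent.K9h89.AW.box_exc4`, the bound behind the team's result
`AnticanonicalWeight`, whose definitions are used here), and this is enough for the lemma of Borel and
Cantelli in the product `Ω_0 × Ω_1`.
-/

set_option autoImplicit false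

namespace Pool.Agent.Results.MP_542436_nt.PairsOfConvergents

open NumberField IsDedekindDomain Height MeasureTheory
open AnticanonicalWeight (counting degree weight loss₀ loss₁ loss₂ TT_weight weight_le sum_degree
  tools)

/-- A reduced effective divisor of `ℙ¹ × ℙ¹` over `K`: the sum of the prime divisors `F_j = 0` and of the
divisors `x_i = ∞` with `i ∈ I`. -/
structure Divisor (K : Type) [Field K] where
  r : ℕ
  F : Fin r → MvPolynomial (Fin 2) K
  I : Finset (Fin 2)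
  irreducible : ∀ j, Irreducible (F j)
  distinct : ∀ j k, j ≠ k → ¬ Associated (F j) (F k)

/-- The inequality for the truncated counting function of `D` (without the primes of `S`) at the point
`x`, with the additive constant `C`: in general with the weights of the components; without the
canonical divisor if all components have total degree at most five; with the canonical divisor (the
inequality of the conjecture) if `∑ max (a_j - 4, 0) ≤ 2`, `∑ max (b_j - 4, 0) ≤ 2` and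
`∑ (a_j + b_j - 4) ≤ 4`, the sums over the components of total degree `a_j + b_j ≥ 6`. -/
def Inequality {K : Type} [Field K] [NumberField K] (D : Divisor K)
    (S : Set (HeightOneSpectrum (𝓞 K))) (ε C : ℝ) (x : Fin 2 → K) : Prop :=
  ∑ j, weight (D.F j) x + ∑ i ∈ D.I, logHeight₁ (x i) -
      ε * (logHeight₁ (x 0) + logHeight₁ (x 1)) ≤ counting S D.F D.I x + C ∧
    ((∀ j, (D.F j).degreeOf 0 + (D.F j).degreeOf 1 ≤ 5) →
      ∑ i, ((degree D.F D.I i : ℝ) - ε) * logHeight₁ (x i) ≤ counting S D.F D.I x + C) ∧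
    (∑ j, loss₀ (D.F j) ≤ 2 → ∑ j, loss₁ (D.F j) ≤ 2 → ∑ j, loss₂ (D.F j) ≤ 4 →
      ∑ i, ((degree D.F D.I i : ℝ) - 2 - ε) * logHeight₁ (x i) ≤ counting S D.F D.I x + C)

/-- The inequality is true for all divisors `D`, all `ε > 0`, all finite sets `S` of primes and all `A`,
with a constant `C`, at all points `x` off `D` and the fibres `x_i ∈ Z D ε` with `near (δ D ε) A x`. -/
def TrueForAllDivisors {K : Type} [Field K] [NumberField K] (δ : Divisor K → ℝ → ℝ)
    (Z : Divisor K → ℝ → Finset K) (near : ℝ → ℝ → (Fin 2 → K) → Prop) : Prop :=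
  ∀ (D : Divisor K) (ε : ℝ), 0 < ε → ∀ S : Set (HeightOneSpectrum (𝓞 K)), S.Finite → ∀ A : ℝ,
    ∃ C : ℝ, ∀ x : Fin 2 → K, near (δ D ε) A x → x 0 ∉ Z D ε → x 1 ∉ Z D ε →
      (∀ j, MvPolynomial.eval x (D.F j) ≠ 0) → Inequality D S ε C x

section

variable {K : Type} [Field K] [NumberField K]

open Pool.Agent.N753.SU Pool.Agent.N753.LS Pool.Agent.H691R3 Pool.Agent.N445.UB
  Pool.Agent.K9h89.AW in
/-- The inequality on a set of points follows from the inequality for the points of large height. -/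
theorem inequality_of (D : Divisor K) {S : Set (HeightOneSpectrum (𝓞 K))} (hS : S.Finite) {ε : ℝ}
    (hε : 0 < ε) {T : Set (Fin 2 → K)} {h0 : ℝ}
    (h2 : ∀ x ∈ T, h0 ≤ htm x → (∀ j, MvPolynomial.eval x (D.F j) ≠ 0) →
      TT4 D.F D.I x - ε * htm x ≤ ∑ v ∈ UU D.F D.I x, Real.log (Nv v)) :
    ∃ C : ℝ, ∀ x ∈ T, (∀ j, MvPolynomial.eval x (D.F j) ≠ 0) → Inequality D S ε C x := by
  classical
  have hF0 : ∀ j, D.F j ≠ 0 := fun j => (D.irreducible j).ne_zero
  have hcount : ∀ x, counting S D.F D.I x = cnt1 S D.F D.I x := fun x => rfl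
  obtain ⟨C1, hC1, h1⟩ := cnt1_ge hS D.F hF0 D.I
  obtain ⟨Q, hQ⟩ : ∃ Q : ℝ, Q = ∑ i, (degree D.F D.I i : ℝ) := ⟨_, rfl⟩
  have hQ0 : 0 ≤ Q := by
    rw [hQ]
    exact Finset.sum_nonneg fun i _ => Nat.cast_nonneg _
  refine ⟨C1 + Q * max h0 0, ?_⟩
  intro x hxT hx
  have hs : 0 ≤ logHeight₁ (x 0) := zero_le_logHeight₁ _
  have ht : 0 ≤ logHeight₁ (x 1) := zero_le_logHeight₁ _
  have hle : ∀ i, logHeight₁ (x i) ≤ htm x := fun i => le_htm x i
  have hm : htm x ≤ logHeight₁ (x 0) + logHeight₁ (x 1) := by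
    refine htm_le two_pos fun i => ?_
    fin_cases i
    · exact le_add_of_nonneg_right ht
    · exact le_add_of_nonneg_left hs
  have hεm := mul_le_mul_of_nonneg_left hm hε.le
  have hsum := sum_degree D.F D.I x
  have hTT := TT_weight D.F D.I x
  have hwle : ∑ j, weight (D.F j) x ≤ ∑ j, ((D.F j).degreeOf 0 * logHeight₁ (x 0) +
      (D.F j).degreeOf 1 * logHeight₁ (x 1)) :=
    Finset.sum_le_sum fun j _ => weight_le (D.F j) x
  have hQm : 0 ≤ Q * max h0 0 := mul_nonneg hQ0 (le_max_right _ _)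
  have hmainx : ∑ j, weight (D.F j) x + ∑ i ∈ D.I, logHeight₁ (x i) -
      ε * (logHeight₁ (x 0) + logHeight₁ (x 1)) ≤ counting S D.F D.I x + (C1 + Q * max h0 0) := by
    rw [hcount]
    by_cases hcase : h0 ≤ htm x
    · have h3 := h2 x hxT hcase hx
      have h4 := h1 x hx
      rw [hTT] at h3
      linarith
    · rw [not_le] at hcase
      have h3 : htm x ≤ max h0 0 := hcase.le.trans (le_max_left _ _)
      have h5 := cnt1_nonneg S D.I hx
      have h6 : ∑ i, (degree D.F D.I i : ℝ) * logHeight₁ (x i) ≤ Q * max h0 0 := by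
        rw [hQ, Finset.sum_mul]
        exact Finset.sum_le_sum fun i _ =>
          mul_le_mul_of_nonneg_left ((hle i).trans h3) (Nat.cast_nonneg _)
      have h7 : 0 ≤ ε * (logHeight₁ (x 0) + logHeight₁ (x 1)) := by positivity
      linarith
  exact ⟨hmainx, conj_of_weights D.F D.I x hmainx⟩

/-- The sum of `exp (-(2 - ν / 4) (h(x_0) + h(x_1)))` over a set with the power saving `ν` in all boxes
converges. -/
theorem summable_box {E : Set (Fin 2 → K)} {ν C : ℝ} (hν : 0 < ν) (hν1 : ν ≤ 1) (hC0 : 0 < C)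
    (hC : ∀ H0 H1 : ℝ, 0 ≤ H0 → 0 ≤ H1 → ∀ S : Finset (Fin 2 → K),
      (∀ x ∈ S, x ∈ E ∧ logHeight₁ (x 0) ≤ H0 ∧ logHeight₁ (x 1) ≤ H1) →
        (S.card : ℝ) ≤ C * Real.exp (2 * H0 + 2 * H1 - ν * max H0 H1)) :
    Summable fun x : E =>
      Real.exp (-(2 - ν / 4) * (logHeight₁ (x.1 0) + logHeight₁ (x.1 1))) := by
  classical
  obtain ⟨q, hq⟩ : ∃ q : ℝ, q = Real.exp (-(ν / 4)) := ⟨_, rfl⟩
  have hq0 : 0 < q := by rw [hq]; exact Real.exp_pos _
  have hq1 : q < 1 := by
    rw [hq]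
    exact (Real.exp_lt_exp.2 (by linarith)).trans_eq Real.exp_zero
  have hgeo : Summable fun p : ℕ × ℕ => q ^ p.1 * q ^ p.2 :=
    (summable_geometric_of_lt_one hq0.le hq1).mul_of_nonneg
      (summable_geometric_of_lt_one hq0.le hq1) (fun n => by positivity) (fun n => by positivity)
  have hqp : ∀ n : ℕ, q ^ n = Real.exp (-(ν / 4) * n) := fun n => by
    rw [hq, ← Real.exp_nat_mul, mul_comm]
  refine summable_of_sum_le (c := C * Real.exp 4 * ∑' p : ℕ × ℕ, q ^ p.1 * q ^ p.2)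
    (fun _ => (Real.exp_pos _).le) fun u => ?_
  let b : E → ℕ × ℕ := fun x => (⌊logHeight₁ (x.1 0)⌋₊, ⌊logHeight₁ (x.1 1)⌋₊)
  rw [← Finset.sum_fiberwise_of_maps_to (s := u) (t := u.image b) (g := b)
    (fun x hx => Finset.mem_image_of_mem b hx)]
  have hfib : ∀ p ∈ u.image b, ∑ x ∈ u with b x = p,
      Real.exp (-(2 - ν / 4) * (logHeight₁ (x.1 0) + logHeight₁ (x.1 1))) ≤
        C * Real.exp 4 * (q ^ p.1 * q ^ p.2) := by
    rintro ⟨i, j⟩ -
    have hmem : ∀ x ∈ u.filter (fun x => b x = (i, j)),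
        ((i : ℝ) ≤ logHeight₁ (x.1 0) ∧ logHeight₁ (x.1 0) ≤ i + 1) ∧
          ((j : ℝ) ≤ logHeight₁ (x.1 1) ∧ logHeight₁ (x.1 1) ≤ j + 1) := by
      intro x hx
      have h1 : b x = (i, j) := (Finset.mem_filter.1 hx).2
      have h2 : ⌊logHeight₁ (x.1 0)⌋₊ = i := congrArg Prod.fst h1
      have h3 : ⌊logHeight₁ (x.1 1)⌋₊ = j := congrArg Prod.snd h1
      rw [← h2, ← h3]
      exact ⟨⟨Nat.floor_le (zero_le_logHeight₁ _), (Nat.lt_floor_add_one _).le⟩,
        ⟨Nat.floor_le (zero_le_logHeight₁ _), (Nat.lt_floor_add_one _).le⟩⟩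
    have hcard := hC (i + 1) (j + 1) (by positivity) (by positivity)
      ((u.filter fun x => b x = (i, j)).map (Function.Embedding.subtype _)) (by
        intro y hy
        obtain ⟨x, hx, rfl⟩ := Finset.mem_map.1 hy
        exact ⟨x.2, (hmem x hx).1.2, (hmem x hx).2.2⟩)
    rw [Finset.card_map] at hcard
    have hle : ∀ x ∈ u.filter (fun x => b x = (i, j)),
        Real.exp (-(2 - ν / 4) * (logHeight₁ (x.1 0) + logHeight₁ (x.1 1))) ≤
          Real.exp (-(2 - ν / 4) * (i + j)) := by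
      intro x hx
      refine Real.exp_le_exp.2 ?_
      have h1 := (hmem x hx).1.1
      have h2 := (hmem x hx).2.1
      have h3 := mul_le_mul_of_nonneg_left (add_le_add h1 h2) (show 0 ≤ 2 - ν / 4 by linarith)
      linarith
    refine (Finset.sum_le_card_nsmul _ _ _ hle).trans ?_
    rw [nsmul_eq_mul]
    refine (mul_le_mul_of_nonneg_right hcard (Real.exp_pos _).le).trans ?_
    rw [hqp, hqp, mul_assoc, mul_assoc, ← Real.exp_add, ← Real.exp_add, ← Real.exp_add]
    refine mul_le_mul_of_nonneg_left (Real.exp_le_exp.2 ?_) hC0.le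
    have h1 : (i : ℝ) + 1 ≤ max ((i : ℝ) + 1) (j + 1) := le_max_left _ _
    have h2 : (j : ℝ) + 1 ≤ max ((i : ℝ) + 1) (j + 1) := le_max_right _ _
    have h3 := mul_le_mul_of_nonneg_left h1 hν.le
    have h4 := mul_le_mul_of_nonneg_left h2 hν.le
    nlinarith
  refine (Finset.sum_le_sum hfib).trans ?_
  rw [← Finset.mul_sum]
  refine mul_le_mul_of_nonneg_left ?_ (by positivity)
  exact hgeo.sum_le_tsum _ fun p _ => by positivity

end

/-- The points `x` both coordinates of which are near to `ω`. -/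
def Near {K : Type} [Field K] [NumberField K] {Ω : Type} (d : Fin 2 → K → Ω → ℝ) (ω : Ω) (δ A : ℝ)
    (x : Fin 2 → K) : Prop :=
  ∀ i, d i (x i) ω ≤ A * Real.exp (-(2 - δ) * logHeight₁ (x i))

/-- The measure of the set of the `ω` with the distances at most `t_0`, `t_1` from `z_0`, `z_1` is at most
`B t_0 t_1`. -/
def Spread {K : Type} {Ω : Type} [MeasurableSpace Ω] (μ : Measure Ω) (d : Fin 2 → K → Ω → ℝ)
    (B : ℝ) : Prop :=
  ∀ (z : Fin 2 → K) (t : Fin 2 → ℝ), (∀ i, 0 < t i) →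
    μ {ω | ∀ i, d i (z i) ω ≤ t i} ≤ ENNReal.ofReal (B * (t 0 * t 1))

/-- Almost all `ω` are near to finitely many points only of a set with a power saving in all boxes. -/
theorem ae_finite {K : Type} [Field K] [NumberField K] {E : Set (Fin 2 → K)} {ν C : ℝ} (hν : 0 < ν)
    (hν1 : ν ≤ 1) (hC0 : 0 < C)
    (hC : ∀ H0 H1 : ℝ, 0 ≤ H0 → 0 ≤ H1 → ∀ S : Finset (Fin 2 → K),
      (∀ x ∈ S, x ∈ E ∧ logHeight₁ (x 0) ≤ H0 ∧ logHeight₁ (x 1) ≤ H1) →
        (S.card : ℝ) ≤ C * Real.exp (2 * H0 + 2 * H1 - ν * max H0 H1))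
    {Ω : Type} [MeasurableSpace Ω] (μ : Measure Ω) (d : Fin 2 → K → Ω → ℝ) (B : ℝ)
    (hB : Spread μ d B) (A : ℝ) (hA : 0 < A) :
    ∀ᵐ ω ∂μ, {x : Fin 2 → K | x ∈ E ∧ Near d ω (ν / 4) A x}.Finite := by
  classical
  have := Pool.Agent.N753.SF.countable_K K
  let s : E → Set Ω := fun x =>
    {ω | ∀ i, d i (x.1 i) ω ≤ A * Real.exp (-(2 - ν / 4) * logHeight₁ (x.1 i))}
  have hsum := (summable_box hν hν1 hC0 hC).mul_left (max B 0 * (A * A))
  have hle : ∀ x : E, μ (s x) ≤ ENNReal.ofReal (max B 0 * (A * A) *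
      Real.exp (-(2 - ν / 4) * (logHeight₁ (x.1 0) + logHeight₁ (x.1 1)))) := by
    intro x
    refine (hB x.1 (fun i => A * Real.exp (-(2 - ν / 4) * logHeight₁ (x.1 i)))
      fun i => mul_pos hA (Real.exp_pos _)).trans ?_
    refine ENNReal.ofReal_le_ofReal ?_
    have e1 : A * Real.exp (-(2 - ν / 4) * logHeight₁ (x.1 0)) *
        (A * Real.exp (-(2 - ν / 4) * logHeight₁ (x.1 1))) =
        A * A * Real.exp (-(2 - ν / 4) * (logHeight₁ (x.1 0) + logHeight₁ (x.1 1))) := by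
      rw [mul_add (-(2 - ν / 4)), Real.exp_add]
      ring
    rw [e1]
    have e2 : 0 ≤ A * A *
        Real.exp (-(2 - ν / 4) * (logHeight₁ (x.1 0) + logHeight₁ (x.1 1))) := by positivity
    refine (mul_le_mul_of_nonneg_right (le_max_left B 0) e2).trans (le_of_eq ?_)
    ring
  have htsum : ∑' x : E, μ (s x) ≠ ⊤ := by
    refine ne_top_of_le_ne_top ?_ (ENNReal.tsum_le_tsum hle)
    exact hsum.tsum_ofReal_ne_top
  filter_upwards [ae_finite_setOfPred_mem htsum] with ω hω
  refine (hω.image Subtype.val).subset ?_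
  rintro x ⟨hxE, hx⟩
  exact ⟨⟨x, hxE⟩, hx, rfl⟩

open Pool.Agent.N753.SU Pool.Agent.N753.LS Pool.Agent.H691R3 Pool.Agent.N445.UB
  Pool.Agent.K9h89.AW in
/-- The first part of the theorem. -/
theorem general (K : Type) [Field K] [NumberField K] :
    ∃ (δ : Divisor K → ℝ → ℝ) (Z : Divisor K → ℝ → Finset K), (∀ D ε, 0 < δ D ε ∧ δ D ε ≤ 1) ∧
      ∀ (Ω : Type) [MeasurableSpace Ω] (μ : Measure Ω) (d : Fin 2 → K → Ω → ℝ) (B : ℝ),
        Spread μ d B → ∀ᵐ ω ∂μ, TrueForAllDivisors δ Z (Near d ω) := by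
  classical
  have hh : ∀ z : K, hr (aff z) = logHeight₁ z := fun z => hr_aff z
  have hbox : ∀ (D : Divisor K) (n : ℕ), ∃ (Z : Finset K) (ν C : ℝ), 0 < ν ∧ ν ≤ 1 ∧ 0 < C ∧
      ∀ H0 H1 : ℝ, 0 ≤ H0 → 0 ≤ H1 → ∀ S : Finset (Fin 2 → K),
        (∀ x ∈ S, x ∈ {x : Fin 2 → K | x 0 ∉ Z ∧ x 1 ∉ Z ∧ x ∈ Ex4 D.F D.I (1 / (n + 1 : ℝ))} ∧
          logHeight₁ (x 0) ≤ H0 ∧ logHeight₁ (x 1) ≤ H1) →
          (S.card : ℝ) ≤ C * Real.exp (2 * H0 + 2 * H1 - ν * max H0 H1) := by
    intro D n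
    obtain ⟨Z, ν, C, hν, hν1, hC0, hC⟩ := box_exc4 tools D.F D.I D.irreducible D.distinct
      (κ := 1 / (n + 1 : ℝ)) (by positivity) (by
        rw [div_le_one (by positivity)]
        linarith [(Nat.cast_nonneg n : (0 : ℝ) ≤ (n : ℝ))])
    refine ⟨Z, ν, C, hν, hν1, hC0, fun H0 H1 h0 h1 S hS => hC H0 H1 h0 h1 S fun x hx => ?_⟩
    rw [hh, hh]
    exact hS x hx
  choose Z ν C hν hν1 hC0 hC using hbox
  refine ⟨fun D ε => ν D ⌈1 / ε⌉₊ / 4, fun D ε => Z D ⌈1 / ε⌉₊, fun D ε => by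
    have h1 := hν D ⌈1 / ε⌉₊
    have h2 := hν1 D ⌈1 / ε⌉₊
    constructor <;> linarith, ?_⟩
  intro Ω _ μ d B hB
  have hcount : Countable (Divisor K) := by
    have := countable_mv K 2
    refine Function.Injective.countable (β := (Σ r : ℕ, Fin r → MvPolynomial (Fin 2) K) ×
      Finset (Fin 2)) (f := fun D => (⟨D.r, D.F⟩, D.I)) ?_
    rintro ⟨r, F, I, h1, h2⟩ ⟨r', F', I', h1', h2'⟩ h
    simp only [Prod.mk.injEq, Sigma.mk.injEq] at h
    obtain ⟨⟨rfl, h3⟩, rfl⟩ := h
    obtain rfl := eq_of_heq h3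
    rfl
  have hae : ∀ᵐ ω ∂μ, ∀ (D : Divisor K) (n N : ℕ),
      {x : Fin 2 → K | x ∈ {x : Fin 2 → K | x 0 ∉ Z D n ∧ x 1 ∉ Z D n ∧
        x ∈ Ex4 D.F D.I (1 / (n + 1 : ℝ))} ∧ Near d ω (ν D n / 4) (N + 1) x}.Finite := by
    rw [ae_all_iff]
    intro D
    rw [ae_all_iff]
    intro n
    rw [ae_all_iff]
    intro N
    exact ae_finite (hν D n) (hν1 D n) (hC0 D n) (hC D n) μ d B hB (N + 1) (by positivity)
  filter_upwards [hae] with ω hω
  intro D ε hε S hS A
  obtain ⟨n, hn⟩ : ∃ n : ℕ, n = ⌈1 / ε⌉₊ := ⟨_, rfl⟩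
  obtain ⟨N, hN⟩ := exists_nat_ge A
  have hfin := hω D n N
  obtain ⟨h0, hh0⟩ : ∃ h0 : ℝ, ∀ x ∈ {x : Fin 2 → K | x ∈ {x : Fin 2 → K | x 0 ∉ Z D n ∧
      x 1 ∉ Z D n ∧ x ∈ Ex4 D.F D.I (1 / (n + 1 : ℝ))} ∧ Near d ω (ν D n / 4) (N + 1) x},
        htm x < h0 := by
    obtain ⟨h0, hh0⟩ := (hfin.image htm).bddAbove
    exact ⟨h0 + 1, fun x hx => by
      have := hh0 (Set.mem_image_of_mem htm hx)
      linarith⟩
  have hκ : 1 / (n + 1 : ℝ) ≤ ε := by
    have h1 : 1 / ε ≤ n := by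
      rw [hn]
      exact Nat.le_ceil _
    rw [div_le_iff₀ hε] at h1
    rw [div_le_iff₀ (by positivity)]
    nlinarith
  have hkey := inequality_of D hS hε (T := {x : Fin 2 → K | (x 0 ∉ Z D n ∧ x 1 ∉ Z D n) ∧
    Near d ω (ν D n / 4) (N + 1) x}) (h0 := h0) (by
      rintro x ⟨⟨hx0, hx1⟩, hx⟩ hht hoff
      by_contra hcon
      rw [not_le] at hcon
      have hm0 : 0 ≤ htm x := (zero_le_logHeight₁ (x 0)).trans (le_htm x 0)
      have h1 : x ∈ Ex4 D.F D.I (1 / (n + 1 : ℝ)) := by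
        refine ⟨hoff, hcon.trans_le ?_⟩
        have := mul_le_mul_of_nonneg_right hκ hm0
        linarith
      exact absurd (hh0 x ⟨⟨hx0, hx1, h1⟩, hx⟩) (not_lt.2 hht))
  obtain ⟨C', hC'⟩ := hkey
  refine ⟨C', fun x hx hx0 hx1 hoff => ?_⟩
  change x 0 ∉ Z D ⌈1 / ε⌉₊ at hx0
  change x 1 ∉ Z D ⌈1 / ε⌉₊ at hx1
  change Near d ω (ν D ⌈1 / ε⌉₊ / 4) A x at hx
  rw [← hn] at hx0 hx1 hx
  refine hC' x ⟨⟨hx0, hx1⟩, ?_⟩ hoff
  have hAN : A ≤ (N : ℝ) + 1 := by linarith
  exact fun i => (hx i).trans (mul_le_mul_of_nonneg_right hAN (Real.exp_pos _).le)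

/-- The height of a rational number near to `ξ` is at most a constant times its denominator. -/
theorem height_le {ξ : ℝ} {z : ℚ} {A : ℝ} (h : |ξ - z| ≤ A) :
    Real.exp (logHeight₁ z) ≤ (|ξ| + A + 1) * z.den := by
  have hd : (1 : ℝ) ≤ z.den := by exact_mod_cast z.den_pos
  have hA : 0 ≤ A := (abs_nonneg _).trans h
  rw [Rat.logHeight₁_eq_log_max, Real.exp_log (by
    rw [Nat.cast_max]
    exact lt_of_lt_of_le (by linarith) (le_max_right _ _)), Nat.cast_max]
  have h1 : ((z.num.natAbs : ℕ) : ℝ) = |(z : ℝ)| * z.den := by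
    rw [Nat.cast_natAbs, Int.cast_abs]
    have h2 : (z : ℝ) = z.num / z.den := by exact_mod_cast (Rat.num_div_den z).symm
    rw [h2, abs_div, Nat.abs_cast, div_mul_cancel₀ _ (by positivity)]
  rw [h1]
  have h3 : |(z : ℝ)| ≤ |ξ| + A := by
    have h4 := abs_sub_abs_le_abs_sub (z : ℝ) ξ
    rw [abs_sub_comm] at h4
    linarith
  refine max_le (mul_le_mul_of_nonneg_right (by linarith) (by linarith)) ?_
  have h5 : 0 ≤ |ξ| := abs_nonneg _
  nlinarith

/-- Vojta's inequality with truncated counting function on `ℙ¹ × ℙ¹` for all divisors at all the pairs of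
good approximations of almost all pairs of numbers. -/
theorem result :
    -- arbitrary number fields, arbitrary measure spaces
    (∀ (K : Type) [Field K] [NumberField K],
      ∃ (δ : Divisor K → ℝ → ℝ) (Z : Divisor K → ℝ → Finset K), (∀ D ε, 0 < δ D ε ∧ δ D ε ≤ 1) ∧
        ∀ (Ω : Type) [MeasurableSpace Ω] (μ : Measure Ω) (d : Fin 2 → K → Ω → ℝ) (B : ℝ),
          Spread μ d B → ∀ᵐ ω ∂μ, TrueForAllDivisors δ Z (Near d ω)) ∧
    -- real numbers, for example all pairs of convergents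
    ∃ (δ : Divisor ℚ → ℝ → ℝ) (Z : Divisor ℚ → ℝ → Finset ℚ), (∀ D ε, 0 < δ D ε ∧ δ D ε ≤ 1) ∧
      ∀ᵐ ξ : ℝ × ℝ, TrueForAllDivisors δ Z fun δ A x =>
        |ξ.1 - x 0| ≤ A * ((x 0).den : ℝ) ^ (-(2 - δ)) ∧
          |ξ.2 - x 1| ≤ A * ((x 1).den : ℝ) ^ (-(2 - δ)) := by
  refine ⟨fun K _ _ => general K, ?_⟩
  obtain ⟨δ, Z, hδ, h⟩ := general ℚ
  refine ⟨δ, Z, hδ, ?_⟩
  have hvol : ∀ (z : ℚ) (t : ℝ),
      (volume : Measure ℝ) {ω | |ω - (z : ℝ)| ≤ t} = ENNReal.ofReal (2 * t) := by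
    intro z t
    have h1 : {ω : ℝ | |ω - (z : ℝ)| ≤ t} = Metric.closedBall (z : ℝ) t := by
      ext ω
      rw [Metric.mem_closedBall, Real.dist_eq]
      rfl
    rw [h1, Real.volume_closedBall]
  have hae := h (ℝ × ℝ) volume (fun i z ω => |(if i = 0 then ω.1 else ω.2) - (z : ℝ)|) 4 (by
    intro z t ht
    have h1 : {ω : ℝ × ℝ | ∀ i : Fin 2, |(if i = 0 then ω.1 else ω.2) - ((z i : ℚ) : ℝ)| ≤ t i} ⊆
        {ω | |ω - ((z 0 : ℚ) : ℝ)| ≤ t 0} ×ˢ {ω | |ω - ((z 1 : ℚ) : ℝ)| ≤ t 1} := by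
      intro ω hω
      exact ⟨by simpa using hω 0, by simpa using hω 1⟩
    refine (measure_mono h1).trans ?_
    rw [Measure.volume_eq_prod, Measure.prod_prod, hvol, hvol, ← ENNReal.ofReal_mul (by
      have := ht 0
      positivity)]
    refine ENNReal.ofReal_le_ofReal (le_of_eq ?_)
    ring)
  filter_upwards [hae] with ξ hξ
  intro D ε hε S hS A
  obtain ⟨M, hM⟩ : ∃ M : ℝ, M = |ξ.1| + |ξ.2| + |A| + 1 := ⟨_, rfl⟩
  have hM1 : 1 ≤ M := by
    have h1 := abs_nonneg ξ.1
    have h2 := abs_nonneg ξ.2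
    have h3 := abs_nonneg A
    linarith
  obtain ⟨C, hC⟩ := hξ D ε hε S hS (|A| * M ^ (2 - δ D ε))
  have hδ1 := (hδ D ε).2
  have key : ∀ (η : ℝ) (z : ℚ), |η| ≤ |ξ.1| + |ξ.2| →
      |η - z| ≤ A * (z.den : ℝ) ^ (-(2 - δ D ε)) →
        |η - z| ≤ |A| * M ^ (2 - δ D ε) * Real.exp (-(2 - δ D ε) * logHeight₁ z) := by
    intro η z hη hz
    have hd : (1 : ℝ) ≤ z.den := by exact_mod_cast z.den_pos
    have hpow : (z.den : ℝ) ^ (-(2 - δ D ε)) ≤ 1 := Real.rpow_le_one_of_one_le_of_nonpos hd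
      (by linarith)
    have hpow0 : 0 < (z.den : ℝ) ^ (-(2 - δ D ε)) := Real.rpow_pos_of_pos (by linarith) _
    have hz2 : |η - z| ≤ |A| * (z.den : ℝ) ^ (-(2 - δ D ε)) :=
      hz.trans (mul_le_mul_of_nonneg_right (le_abs_self A) hpow0.le)
    have hzA : |η - z| ≤ |A| := hz2.trans (mul_le_of_le_one_right (abs_nonneg A) hpow)
    have h1 := height_le hzA
    have h2 : Real.exp (logHeight₁ z) ≤ M * z.den :=
      h1.trans (mul_le_mul_of_nonneg_right (by linarith) (by linarith))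
    have h3 : Real.exp (logHeight₁ z) ^ (2 - δ D ε) ≤ (M * z.den) ^ (2 - δ D ε) :=
      Real.rpow_le_rpow (Real.exp_pos _).le h2 (by linarith)
    rw [Real.mul_rpow (by linarith) (by linarith), ← Real.exp_mul] at h3
    have h4 : (z.den : ℝ) ^ (-(2 - δ D ε)) ≤
        M ^ (2 - δ D ε) * Real.exp (-(2 - δ D ε) * logHeight₁ z) := by
      rw [Real.rpow_neg (by linarith), neg_mul, Real.exp_neg, ← div_eq_mul_inv,
        le_div_iff₀ (Real.exp_pos _), inv_mul_le_iff₀ (Real.rpow_pos_of_pos (by linarith) _)]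
      rw [mul_comm (logHeight₁ z)] at h3
      linarith
    refine hz2.trans ?_
    rw [mul_assoc]
    exact mul_le_mul_of_nonneg_left h4 (abs_nonneg A)
  refine ⟨C, fun x hx hx0 hx1 hoff => hC x (fun i => ?_) hx0 hx1 hoff⟩
  fin_cases i
  · exact key ξ.1 (x 0) (by linarith [abs_nonneg ξ.2]) hx.1
  · exact key ξ.2 (x 1) (by linarith [abs_nonneg ξ.1]) hx.2

end Pool.Agent.Results.MP_542436_nt.PairsOfConvergents
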